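import Mathlib

set_option autoImplicit false

/-!
# MP_567833: `τ` is not subadditive

For the stars `G = K_{1,6}` and `H = K_{1,20}` a count of vertex sums gives `τ(G) ≤ 9` and
`τ(H) ≤ 41`, whereas `G ∪ H ∪ t P₃` is antimagic for all `t ≤ 51`, so that
`τ(G ∪ H) ≥ 51 > τ(G) + τ(H)`.
-/

namespace Pool.Agent.Results.MP_567833_co.NotSubadditive

open SimpleGraph

/-! ### definitions -/

open Classical in
/-- `φ_f(v)`: the sum of `f(e)` over the edges `e` incident to `v`. -/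
noncomputable def vertexSum {V : Type} [Fintype V] (G : SimpleGraph V) (f : Sym2 V → ℕ)
    (v : V) : ℕ :=
  ∑ e ∈ Finset.univ.filter (fun e : Sym2 V => e ∈ G.edgeSet ∧ v ∈ e), f e

/-- `G` is antimagic: some bijection `f : E(G) → {1,…,m}` has pairwise distinct vertex sums. -/
def Antimagic {V : Type} [Fintype V] (G : SimpleGraph V) : Prop :=
  ∃ f : Sym2 V → ℕ, Set.BijOn f G.edgeSet (Set.Icc 1 G.edgeSet.ncard) ∧
    ∀ u v : V, u ≠ v → vertexSum G f u ≠ vertexSum G f v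

/-- `t H`: the disjoint union of `t` copies of `H`. -/
def copies (t : ℕ) {W : Type} (H : SimpleGraph W) : SimpleGraph (Fin t × W) where
  Adj x y := x.1 = y.1 ∧ H.Adj x.2 y.2
  symm := ⟨fun _ _ h => ⟨h.1.symm, h.2.symm⟩⟩
  loopless := ⟨fun _ h => h.2.ne rfl⟩

open Classical in
/-- `τ(G)`, with value `⊥ = -∞` if `G` is not antimagic. -/
noncomputable def tau {V : Type} [Fintype V] (G : SimpleGraph V) : WithBot ℕ∞ :=
  if Antimagic G then
    ((sSup ((fun t : ℕ => (t : ℕ∞)) ''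
      {t : ℕ | ∀ t' ≤ t, Antimagic (G ⊕g copies t' (pathGraph 3))}) : ℕ∞) : WithBot ℕ∞)
  else ⊥

/-! ### counting -/

theorem sum_ge {α : Type} [DecidableEq α] (s : Finset α) (f : α → ℕ) :
    Set.InjOn f (s : Set α) → (∀ a ∈ s, 1 ≤ f a) →
    s.card * (s.card + 1) ≤ 2 * ∑ a ∈ s, f a := by
  induction s using Finset.induction_on_max_value f with
  | empty => simp
  | insert a s ha hmax ih =>
    intro hinj hpos
    have ih' := ih (hinj.mono (by simp)) (fun b hb => hpos b (Finset.mem_insert_of_mem hb))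
    rw [Finset.card_insert_of_notMem ha, Finset.sum_insert ha]
    have hfa : s.card + 1 ≤ f a := by
      have h1 : (insert a s).image f ⊆ Finset.Icc 1 (f a) := by
        intro y hy
        obtain ⟨b, hb, rfl⟩ := Finset.mem_image.1 hy
        rw [Finset.mem_Icc]
        refine ⟨hpos b hb, ?_⟩
        rcases Finset.mem_insert.1 hb with rfl | hb
        · exact le_rfl
        · exact hmax b hb
      have h2 := Finset.card_le_card h1
      rw [Finset.card_image_of_injOn hinj, Nat.card_Icc, Finset.card_insert_of_notMem ha] at h2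
      omega
    nlinarith

theorem sum_vertexSum {V : Type} [Fintype V] (G : SimpleGraph V) (f : Sym2 V → ℕ)
    (hf : Set.BijOn f G.edgeSet (Set.Icc 1 G.edgeSet.ncard)) :
    ∑ v, vertexSum G f v = G.edgeSet.ncard * (G.edgeSet.ncard + 1) := by
  classical
  set M := G.edgeSet.ncard with hM
  have h1 : ∀ v, vertexSum G f v =
      ∑ e ∈ Finset.univ.filter (fun e : Sym2 V => e ∈ G.edgeSet), if v ∈ e then f e else 0 := by
    intro v
    rw [vertexSum, ← Finset.sum_filter, Finset.filter_filter]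
  simp_rw [h1]
  rw [Finset.sum_comm]
  have h2 : ∀ e ∈ Finset.univ.filter (fun e : Sym2 V => e ∈ G.edgeSet),
      (∑ v : V, if v ∈ e then f e else 0) = 2 * f e := by
    intro e he
    rw [Finset.mem_filter] at he
    have hd : ¬ e.IsDiag := G.not_isDiag_of_mem_edgeSet he.2
    rw [← Finset.sum_filter, Finset.sum_const, smul_eq_mul]
    congr 1
    have h3 := Sym2.card_toFinset_of_not_isDiag e hd
    rw [← h3]
    congr 1
    ext v
    simp
  rw [Finset.sum_congr rfl h2, ← Finset.mul_sum]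
  have h4 : ∑ e ∈ Finset.univ.filter (fun e : Sym2 V => e ∈ G.edgeSet), f e =
      ∑ i ∈ Finset.Icc 1 M, i := by
    apply Finset.sum_bij (fun e _ => f e)
    · intro e he
      rw [Finset.mem_filter] at he
      have := hf.mapsTo he.2
      rwa [Set.mem_Icc, ← Finset.mem_Icc] at this
    · intro e he e' he' h
      rw [Finset.mem_filter] at he he'
      exact hf.injOn he.2 he'.2 h
    · intro i hi
      rw [Finset.mem_Icc, ← Set.mem_Icc] at hi
      obtain ⟨e, he, rfl⟩ := hf.surjOn hi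
      exact ⟨e, by simpa using he, rfl⟩
    · intros; rfl
  rw [h4]
  have h5 : ∑ i ∈ Finset.Icc 1 M, i = ∑ i ∈ Finset.range (M + 1), i := by
    rw [Finset.range_eq_Ico, Finset.sum_eq_sum_Ico_succ_bot (by omega : 0 < M + 1)]
    simp only [zero_add]
    rfl
  rw [h5, mul_comm, Finset.sum_range_id_mul_two]
  rw [Nat.add_sub_cancel, mul_comm]

/-- The counting obstruction. -/
theorem antimagic_count {V : Type} [Fintype V] (G : SimpleGraph V) (v0 : V) (d : ℕ)
    (hd : d ≤ (G.neighborSet v0).ncard) (hiso : ∀ v, ∃ w, G.Adj v w) (h : Antimagic G) :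
    (Fintype.card V - 1) * Fintype.card V + d * (d + 1) ≤
      2 * (G.edgeSet.ncard * (G.edgeSet.ncard + 1)) := by
  classical
  obtain ⟨f, hf, hdist⟩ := h
  rw [← sum_vertexSum G f hf]
  have hposE : ∀ e ∈ G.edgeSet, 1 ≤ f e := fun e he => (hf.mapsTo he).1
  have h1 : ∀ v, 1 ≤ vertexSum G f v := by
    intro v
    obtain ⟨w, hw⟩ := hiso v
    have hmem : s(v, w) ∈ Finset.univ.filter (fun e : Sym2 V => e ∈ G.edgeSet ∧ v ∈ e) := by
      simp [hw]
    have h2 := Finset.single_le_sum (f := f) (fun e _ => Nat.zero_le _) hmem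
    have h3 := hposE s(v, w) hw
    exact h3.trans h2
  have h2 : (Fintype.card V - 1) * Fintype.card V ≤
      2 * ∑ v ∈ Finset.univ.erase v0, vertexSum G f v := by
    have h3 := sum_ge (Finset.univ.erase v0) (vertexSum G f)
      (fun u _ v _ huv => by
        by_contra hne
        exact hdist u v hne huv) (fun v _ => h1 v)
    rw [Finset.card_erase_of_mem (Finset.mem_univ _), Finset.card_univ] at h3
    have h4 : 0 < Fintype.card V := Fintype.card_pos_iff.2 ⟨v0⟩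
    have h5 : Fintype.card V - 1 + 1 = Fintype.card V := by omega
    rwa [h5] at h3
  have h3 : d * (d + 1) ≤ 2 * vertexSum G f v0 := by
    have h4 := sum_ge (Finset.univ.filter (fun e : Sym2 V => e ∈ G.edgeSet ∧ v0 ∈ e)) f
      (fun e he e' he' hee => by
        rw [Finset.mem_coe, Finset.mem_filter] at he he'
        exact hf.injOn he.2.1 he'.2.1 hee)
      (fun e he => by
        rw [Finset.mem_filter] at he
        exact hposE e he.2.1)
    have h5 : d ≤ (Finset.univ.filter (fun e : Sym2 V => e ∈ G.edgeSet ∧ v0 ∈ e)).card := by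
      refine hd.trans ?_
      rw [Set.ncard_eq_toFinset_card']
      apply Finset.card_le_card_of_injOn (fun w => s(v0, w))
      · intro w hw
        have : G.Adj v0 w := by simpa using hw
        simp [this]
      · intro w _ w' _ hww
        exact Sym2.congr_right.1 hww
    exact (Nat.mul_le_mul h5 (Nat.add_le_add_right h5 1)).trans h4
  have h4 : ∑ v, vertexSum G f v =
      vertexSum G f v0 + ∑ v ∈ Finset.univ.erase v0, vertexSum G f v :=
    (Finset.add_sum_erase _ _ (Finset.mem_univ v0)).symm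
  omega


/-- Counting all vertex sums. -/
theorem antimagic_count' {V : Type} [Fintype V] (G : SimpleGraph V)
    (hiso : ∀ v, ∃ w, G.Adj v w) (h : Antimagic G) :
    Fintype.card V * (Fintype.card V + 1) ≤
      2 * (G.edgeSet.ncard * (G.edgeSet.ncard + 1)) := by
  classical
  obtain ⟨f, hf, hdist⟩ := h
  rw [← sum_vertexSum G f hf]
  have hposE : ∀ e ∈ G.edgeSet, 1 ≤ f e := fun e he => (hf.mapsTo he).1
  have h1 : ∀ v, 1 ≤ vertexSum G f v := by
    intro v
    obtain ⟨w, hw⟩ := hiso v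
    have hmem : s(v, w) ∈ Finset.univ.filter (fun e : Sym2 V => e ∈ G.edgeSet ∧ v ∈ e) := by
      simp [hw]
    have h2 := Finset.single_le_sum (f := f) (fun e _ => Nat.zero_le _) hmem
    have h3 := hposE s(v, w) hw
    exact h3.trans h2
  have h3 := sum_ge (Finset.univ : Finset V) (vertexSum G f)
    (fun u _ v _ huv => by
      by_contra hne
      exact hdist u v hne huv) (fun v _ => h1 v)
  rwa [Finset.card_univ] at h3

/-! ### star forests -/

/-- `G` is a star forest whose leaves are `L` and `p` sends a leaf to its neighbour. -/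
def SF {V : Type} (G : SimpleGraph V) (L : Finset V) (p : V → V) : Prop :=
  (∀ x ∈ L, p x ∉ L) ∧ ∀ x y, G.Adj x y ↔ (x ∈ L ∧ p x = y) ∨ (y ∈ L ∧ p y = x)

theorem SF.edge_inj {V : Type} {G : SimpleGraph V} {L : Finset V} {p : V → V} (h : SF G L p) :
    Set.InjOn (fun x => s(x, p x)) (L : Set V) := by
  intro x hx y hy hxy
  rw [Finset.mem_coe] at hx hy
  rcases Sym2.eq_iff.1 hxy with h' | h'
  · exact h'.1
  · exact absurd hx (h'.1 ▸ h.1 y hy)

theorem SF.edgeSet {V : Type} {G : SimpleGraph V} {L : Finset V} {p : V → V} (h : SF G L p) :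
    G.edgeSet = (fun x => s(x, p x)) '' (L : Set V) := by
  ext e
  induction e using Sym2.ind with
  | _ x y =>
    rw [mem_edgeSet, h.2, Set.mem_image]
    constructor
    · rintro (⟨hx, hy⟩ | ⟨hx, hy⟩)
      · exact ⟨x, hx, by rw [hy]⟩
      · exact ⟨y, hx, by rw [hy, Sym2.eq_swap]⟩
    · rintro ⟨z, hz, hzz⟩
      rcases Sym2.eq_iff.1 hzz with h' | h'
      · exact Or.inl ⟨h'.1 ▸ hz, by rw [← h'.1, h'.2]⟩
      · exact Or.inr ⟨h'.1 ▸ hz, by rw [← h'.1, h'.2]⟩

theorem SF.ncard {V : Type} {G : SimpleGraph V} {L : Finset V} {p : V → V} (h : SF G L p) :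
    G.edgeSet.ncard = L.card := by
  rw [h.edgeSet, h.edge_inj.ncard_image, Set.ncard_coe_finset]

theorem SF.antimagic {V : Type} [Fintype V] [DecidableEq V] {G : SimpleGraph V} {L : Finset V}
    {p : V → V} (h : SF G L p) (l : V → ℕ) (h0 : ∀ x, x ∉ L → l x = 0)
    (hinj : Set.InjOn l (L : Set V)) (hr : ∀ x ∈ L, 1 ≤ l x ∧ l x ≤ L.card)
    (hs : ∀ u v, u ≠ v → (if u ∈ L then l u else ∑ x ∈ L, if p x = u then l x else 0) ≠
      (if v ∈ L then l v else ∑ x ∈ L, if p x = v then l x else 0)) :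
    Antimagic G := by
  classical
  let f : Sym2 V → ℕ := Sym2.lift ⟨fun x y => l x + l y, fun x y => add_comm _ _⟩
  have hf : ∀ x ∈ L, f s(x, p x) = l x := by
    intro x hx
    change l x + l (p x) = l x
    rw [h0 _ (h.1 x hx), add_zero]
  have himg : L.image l = Finset.Icc 1 L.card := by
    apply Finset.eq_of_subset_of_card_le
    · intro y hy
      obtain ⟨x, hx, rfl⟩ := Finset.mem_image.1 hy
      exact Finset.mem_Icc.2 (hr x hx)
    · rw [Finset.card_image_of_injOn hinj, Nat.card_Icc, Nat.add_sub_cancel]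
  refine ⟨f, ?_, ?_⟩
  · rw [h.ncard, h.edgeSet]
    refine ⟨?_, ?_, ?_⟩
    · rintro _ ⟨x, hx, rfl⟩
      rw [hf x hx]
      exact Set.mem_Icc.2 (hr x hx)
    · rintro _ ⟨x, hx, rfl⟩ _ ⟨y, hy, rfl⟩ hxy
      rw [hf x hx, hf y hy] at hxy
      rw [hinj hx hy hxy]
    · intro i hi
      have : i ∈ L.image l := by
        rw [himg]
        exact Finset.mem_Icc.2 (Set.mem_Icc.1 hi)
      obtain ⟨x, hx, rfl⟩ := Finset.mem_image.1 this
      exact ⟨s(x, p x), ⟨x, hx, rfl⟩, hf x hx⟩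
  · have key : ∀ v, vertexSum G f v =
        if v ∈ L then l v else ∑ x ∈ L, if p x = v then l x else 0 := by
      intro v
      have h1 : vertexSum G f v =
          ∑ e ∈ (L.filter (fun x => v = x ∨ v = p x)).image (fun x => s(x, p x)), f e := by
        unfold vertexSum
        apply Finset.sum_congr _ (fun _ _ => rfl)
        ext e
        simp only [Finset.mem_filter, Finset.mem_univ, true_and, Finset.mem_image]
        rw [h.edgeSet, Set.mem_image]
        constructor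
        · rintro ⟨⟨x, hx, rfl⟩, hv⟩
          exact ⟨x, ⟨hx, by simpa using hv⟩, rfl⟩
        · rintro ⟨x, ⟨hx, hv⟩, rfl⟩
          exact ⟨⟨x, hx, rfl⟩, by simpa using hv⟩
      rw [h1, Finset.sum_image]
      · split_ifs with hv
        · have h2 : L.filter (fun x => v = x ∨ v = p x) = {v} := by
            ext x
            simp only [Finset.mem_filter, Finset.mem_singleton]
            constructor
            · rintro ⟨hx, rfl | h'⟩
              · rfl
              · exact absurd hv (h' ▸ h.1 x hx)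
            · rintro rfl
              exact ⟨hv, Or.inl rfl⟩
          rw [h2, Finset.sum_singleton, hf v hv]
        · rw [← Finset.sum_filter]
          apply Finset.sum_congr
          · ext x
            simp only [Finset.mem_filter]
            constructor
            · rintro ⟨hx, rfl | h'⟩
              · exact absurd hx hv
              · exact ⟨hx, h'.symm⟩
            · rintro ⟨hx, h'⟩
              exact ⟨hx, Or.inr h'.symm⟩
          · intro x hx
            exact hf x (Finset.mem_filter.1 hx).1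
      · intro x hx y hy hxy
        exact h.edge_inj (Finset.mem_of_mem_filter x hx) (Finset.mem_of_mem_filter y hy) hxy
    intro u v huv
    rw [key, key]
    exact hs u v huv

theorem SF.sum {V W : Type} {G : SimpleGraph V} {L : Finset V} {p : V → V} (h : SF G L p)
    {H : SimpleGraph W} {L' : Finset W} {p' : W → W} (h' : SF H L' p') :
    SF (G ⊕g H) (L.disjSum L') (Sum.map p p') := by
  constructor
  · rintro (x | x) hx
    · simpa using h.1 x (by simpa using hx)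
    · simpa using h'.1 x (by simpa using hx)
  · rintro (x | x) (y | y)
    · simpa using h.2 x y
    · simp
    · simp
    · simpa using h'.2 x y

/-- The star `K_{1,r}` with centre `0`. -/
def star (r : ℕ) : SimpleGraph (Fin (r + 1)) where
  Adj x y := x ≠ y ∧ (x = 0 ∨ y = 0)
  symm := ⟨fun _ _ h => ⟨h.1.symm, h.2.symm⟩⟩
  loopless := ⟨fun _ h => h.1 rfl⟩

theorem SF_star (r : ℕ) : SF (star r) (Finset.univ.erase 0) (fun _ => 0) := by
  constructor
  · intro x _
    simp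
  · intro x y
    change (x ≠ y ∧ (x = 0 ∨ y = 0)) ↔ _
    simp only [Finset.mem_erase, Finset.mem_univ, and_true]
    constructor
    · rintro ⟨hne, rfl | rfl⟩
      · exact Or.inr ⟨hne.symm, rfl⟩
      · exact Or.inl ⟨hne, rfl⟩
    · rintro (⟨h1, h2⟩ | ⟨h1, h2⟩)
      · exact ⟨fun h => h1 (h.trans h2.symm), Or.inr h2.symm⟩
      · exact ⟨fun h => h1 (h.symm.trans h2.symm), Or.inl h2.symm⟩

theorem SF_copies (t : ℕ) : SF (copies t (pathGraph 3))
    ((Finset.univ : Finset (Fin t)) ×ˢ ({0, 2} : Finset (Fin 3))) (fun x => (x.1, 1)) := by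
  constructor
  · rintro ⟨i, a⟩ _
    simp
  · rintro ⟨i, a⟩ ⟨j, b⟩
    change (i = j ∧ (pathGraph 3).Adj a b) ↔ _
    rw [pathGraph_adj]
    simp only [Finset.mem_product, Finset.mem_univ, true_and, Prod.mk.injEq]
    have key : ∀ a b : Fin 3, (a.val + 1 = b.val ∨ b.val + 1 = a.val) ↔
        ((a ∈ ({0, 2} : Finset (Fin 3)) ∧ 1 = b) ∨ (b ∈ ({0, 2} : Finset (Fin 3)) ∧ 1 = a)) := by
      decide
    rw [key]
    constructor
    · rintro ⟨rfl, h | h⟩
      · exact Or.inl ⟨h.1, rfl, h.2⟩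
      · exact Or.inr ⟨h.1, rfl, h.2⟩
    · rintro (⟨h1, h2, h3⟩ | ⟨h1, h2, h3⟩)
      · exact ⟨h2, Or.inl ⟨h1, h3⟩⟩
      · exact ⟨h2.symm, Or.inr ⟨h1, h3⟩⟩

/-- A star forest without isolated vertices: every non-leaf has a leaf. -/
theorem iso_star (r : ℕ) (hr : 1 ≤ r) (t : ℕ) :
    ∀ v, ∃ w, (star r ⊕g copies t (pathGraph 3)).Adj v w := by
  rintro (x | ⟨i, a⟩)
  · by_cases hx : x = 0
    · refine ⟨Sum.inl ⟨1, by omega⟩, ?_⟩
      rw [sum_adj_inl]
      refine ⟨?_, Or.inl hx⟩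
      rw [hx]
      intro h
      rw [Fin.ext_iff] at h
      simp at h
    · refine ⟨Sum.inl 0, ?_⟩
      rw [sum_adj_inl]
      exact ⟨hx, Or.inr rfl⟩
  · have : ∀ a : Fin 3, ∃ b : Fin 3, (pathGraph 3).Adj a b := by
      intro a
      fin_cases a
      · exact ⟨1, by simp [pathGraph_adj]⟩
      · exact ⟨0, by simp [pathGraph_adj]⟩
      · exact ⟨1, by simp [pathGraph_adj]⟩
    obtain ⟨b, hb⟩ := this a
    exact ⟨Sum.inr (i, b), by rw [sum_adj_inr]; exact ⟨rfl, hb⟩⟩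

theorem ncard_star (r t : ℕ) :
    (star r ⊕g copies t (pathGraph 3)).edgeSet.ncard = r + 2 * t := by
  rw [((SF_star r).sum (SF_copies t)).ncard, Finset.card_disjSum, Finset.card_product,
    Finset.card_erase_of_mem (Finset.mem_univ _), Finset.card_univ, Finset.card_univ,
    Fintype.card_fin, Fintype.card_fin]
  have : ({0, 2} : Finset (Fin 3)).card = 2 := by decide
  rw [this]
  omega

theorem not_antimagic_6 : ¬ Antimagic (star 6 ⊕g copies 10 (pathGraph 3)) := by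
  intro h
  have h1 := antimagic_count' _ (iso_star 6 (by norm_num) 10) h
  rw [ncard_star] at h1
  have h3 : Fintype.card (Fin (6 + 1) ⊕ (Fin 10 × Fin 3)) = 37 := by simp
  rw [h3] at h1
  omega

theorem not_antimagic_20 : ¬ Antimagic (star 20 ⊕g copies 42 (pathGraph 3)) := by
  intro h
  have h1 := antimagic_count _ (Sum.inl 0) 20 ?_ (iso_star 20 (by norm_num) 42) h
  · rw [ncard_star] at h1
    have h3 : Fintype.card (Fin (20 + 1) ⊕ (Fin 42 × Fin 3)) = 147 := by simp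
    rw [h3] at h1
    omega
  · have h5 : (fun w : Fin 20 => (Sum.inl w.succ : Fin (20 + 1) ⊕ (Fin 42 × Fin 3))) '' Set.univ ⊆
        (star 20 ⊕g copies 42 (pathGraph 3)).neighborSet (Sum.inl 0) := by
      rintro _ ⟨w, _, rfl⟩
      rw [mem_neighborSet, sum_adj_inl]
      exact ⟨(Fin.succ_ne_zero w).symm, Or.inl rfl⟩
    have h6 := Set.ncard_le_ncard h5 (Set.toFinite _)
    rw [Set.ncard_image_of_injective, Set.ncard_univ, Nat.card_eq_fintype_card,
      Fintype.card_fin] at h6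
    · exact h6
    · intro a b hab
      exact Fin.succ_injective _ (Sum.inl_injective hab)

theorem antimagic_star (r : ℕ) (hr : 2 ≤ r) : Antimagic (star r) := by
  have hcard : (Finset.univ.erase (0 : Fin (r + 1))).card = r := by
    rw [Finset.card_erase_of_mem (Finset.mem_univ _), Finset.card_univ, Fintype.card_fin]
    omega
  have hsum : ∀ x : Fin (r + 1), x ≠ 0 → x.val <
      ∑ y ∈ Finset.univ.erase (0 : Fin (r + 1)), y.val := by
    intro x hx
    have hx' : x.val ≠ 0 := fun h => hx (Fin.ext h)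
    obtain ⟨y, hy, hyx⟩ : ∃ y : Fin (r + 1), y ≠ 0 ∧ y ≠ x := by
      by_cases h1 : x.val = 1
      · refine ⟨⟨2, by omega⟩, ?_, ?_⟩
        · intro h; rw [Fin.ext_iff] at h; simp at h
        · intro h; rw [Fin.ext_iff] at h; simp at h; omega
      · refine ⟨⟨1, by omega⟩, ?_, ?_⟩
        · intro h; rw [Fin.ext_iff] at h; simp at h
        · intro h; rw [Fin.ext_iff] at h; simp at h; omega
    have hy' : y.val ≠ 0 := fun h => hy (Fin.ext h)
    have h2 : ∑ z ∈ ({x, y} : Finset (Fin (r + 1))), z.val ≤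
        ∑ z ∈ Finset.univ.erase (0 : Fin (r + 1)), z.val := by
      apply Finset.sum_le_sum_of_subset
      intro z hz
      rw [Finset.mem_insert, Finset.mem_singleton] at hz
      rcases hz with rfl | rfl
      · exact Finset.mem_erase.2 ⟨hx, Finset.mem_univ _⟩
      · exact Finset.mem_erase.2 ⟨hy, Finset.mem_univ _⟩
    rw [Finset.sum_pair hyx.symm] at h2
    omega
  refine (SF_star r).antimagic (fun x => x.val) ?_ ?_ ?_ ?_
  · intro x hx
    have : x = 0 := by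
      by_contra h
      exact hx (Finset.mem_erase.2 ⟨h, Finset.mem_univ _⟩)
    rw [this]
    rfl
  · intro x _ y _ hxy
    exact Fin.ext hxy
  · intro x hx
    rw [hcard]
    have h1 := (Finset.mem_erase.1 hx).1
    have h2 : x.val ≠ 0 := fun h => h1 (Fin.ext h)
    exact ⟨by omega, by omega⟩
  · intro u v huv
    have hif : ∀ u : Fin (r + 1), (if u ∈ Finset.univ.erase (0 : Fin (r + 1)) then u.val else
        ∑ x ∈ Finset.univ.erase (0 : Fin (r + 1)), if (0 : Fin (r + 1)) = u then x.val else 0) =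
        if u = 0 then ∑ x ∈ Finset.univ.erase (0 : Fin (r + 1)), x.val else u.val := by
      intro u
      by_cases hu : u = 0
      · subst hu
        simp
      · simp [hu]
    rw [hif, hif]
    by_cases hu : u = 0
    · by_cases hv : v = 0
      · exact absurd (hu.trans hv.symm) huv
      · rw [if_pos hu, if_neg hv]
        exact (hsum v hv).ne'
    · by_cases hv : v = 0
      · rw [if_neg hu, if_pos hv]
        exact (hsum u hu).ne
      · rw [if_neg hu, if_neg hv]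
        exact fun h => huv (Fin.ext h)

/-! ### the labellings -/

/-- permutations `p` of `{1,…,t}`, `t` even, with `x + p x` distinct -/
def tab : List (List ℕ) :=
   [[],
    [1, 2],
    [2, 3, 1, 4],
    [3, 1, 5, 2, 6, 4],
    [6, 2, 3, 7, 8, 4, 5, 1],
    [10, 5, 1, 4, 8, 3, 7, 2, 6, 9],
    [1, 5, 2, 9, 12, 6, 4, 11, 7, 8, 10, 3],
    [14, 7, 13, 6, 12, 5, 1, 4, 10, 3, 9, 2, 8, 11],
    [1, 8, 15, 7, 9, 6, 13, 5, 12, 14, 11, 3, 16, 2, 4, 10],
    [5, 8, 18, 1, 15, 6, 2, 10, 16, 17, 4, 7, 3, 9, 11, 12, 13, 14],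
    [20, 10, 19, 9, 1, 8, 12, 7, 16, 6, 18, 5, 14, 4, 13, 15, 17, 2, 11, 3],
    [22, 11, 21, 10, 2, 9, 14, 8, 19, 7, 1, 6, 16, 5, 15, 18, 3, 4, 13, 20, 12, 17],
    [24, 12, 1, 11, 3, 10, 16, 9, 21, 8, 2, 7, 18, 6, 17, 5, 20, 4, 15, 22, 14, 19, 13, 23],
    [15, 19, 7, 14, 22, 9, 6, 25, 26, 10, 17, 2, 18, 11, 24, 8, 13, 5, 21, 12, 1, 23, 3, 20, 4, 16],
    [28, 14, 27, 13, 26, 12, 25, 11, 24, 10, 23, 9, 1, 8, 21, 7, 20, 6, 19, 5, 18, 4, 17, 3, 16, 2, 15, 22],
    [30, 15, 29, 14, 28, 13, 1, 12, 26, 11, 25, 10, 2, 9, 23, 8, 22, 7, 21, 6, 20, 5, 19, 4, 18, 3, 17, 24, 16, 27],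
    [24, 17, 8, 11, 12, 27, 23, 1, 13, 18, 21, 4, 5, 6, 25, 26, 29, 3, 22, 14, 16, 30, 20, 7, 19, 9, 2, 10, 32, 15, 31, 28],
    [16, 9, 7, 20, 15, 6, 32, 13, 22, 8, 2, 11, 3, 1, 4, 12, 28, 19, 31, 5, 17, 10, 21, 29, 27, 23, 34, 18, 33, 30, 26, 24, 14, 25],
    [19, 34, 25, 12, 10, 32, 15, 13, 14, 29, 16, 6, 1, 17, 2, 3, 7, 11, 28, 21, 33, 23, 9, 20, 35, 31, 8, 22, 24, 4, 18, 36, 30, 27, 5, 26],
    [38, 26, 21, 14, 11, 23, 8, 17, 10, 16, 12, 2, 22, 3, 18, 24, 4, 31, 35, 7, 25, 33, 34, 37, 27, 30, 9, 19, 5, 29, 20, 13, 15, 28, 6, 36, 1, 32],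
    [23, 16, 37, 15, 20, 25, 34, 36, 13, 17, 22, 4, 19, 12, 8, 14, 3, 31, 32, 1, 18, 40, 27, 33, 10, 28, 7, 38, 35, 26, 11, 6, 30, 39, 2, 29, 24, 9, 21, 5],
    [41, 23, 38, 16, 14, 32, 30, 21, 25, 17, 19, 11, 18, 40, 13, 37, 7, 26, 2, 29, 1, 4, 12, 8, 34, 39, 9, 5, 27, 28, 15, 42, 24, 35, 10, 3, 6, 33, 22, 36, 31, 20],
    [23, 35, 18, 24, 15, 20, 33, 34, 22, 31, 25, 11, 12, 41, 38, 13, 10, 16, 39, 36, 26, 8, 42, 19, 32, 6, 37, 21, 44, 29, 30, 1, 2, 4, 43, 3, 7, 14, 9, 28, 5, 27, 17, 40],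
    [23, 28, 46, 22, 29, 41, 18, 42, 34, 31, 11, 19, 40, 24, 43, 26, 12, 10, 27, 20, 45, 1, 21, 37, 32, 36, 38, 4, 8, 5, 25, 35, 6, 2, 13, 39, 14, 16, 44, 30, 33, 3, 17, 15, 7, 9],
    [48, 23, 21, 22, 28, 46, 41, 27, 31, 40, 20, 15, 24, 16, 13, 47, 43, 25, 37, 45, 36, 19, 9, 10, 14, 29, 18, 1, 33, 6, 30, 32, 39, 8, 3, 44, 34, 38, 5, 42, 17, 12, 26, 35, 2, 7, 4, 11],
    [43, 44, 49, 30, 33, 35, 46, 50, 38, 47, 19, 23, 24, 34, 27, 17, 48, 9, 7, 8, 15, 32, 26, 5, 39, 41, 16, 4, 11, 1, 37, 29, 22, 45, 36, 3, 25, 28, 6, 10, 42, 40, 13, 31, 18, 14, 12, 21, 2, 20]]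

/-- the second labels of the `P₃`s, `t` of them -/
def pr (t k : ℕ) : ℕ :=
  if t % 2 = 1 then (if k % 2 = 0 then t - k / 2 else t / 2 - k / 2)
  else (tab.getD (t / 2) []).getD k 0

/-- the labels of the two stars: the first six for `K_{1,6}` -/
def starTab : List (List ℕ) :=
   [[1, 2, 3, 4, 5, 12, 6, 7, 8, 9, 10, 11, 13, 14, 15, 16, 17, 18, 19, 20, 21, 22, 23, 24, 25, 26],
    [1, 2, 3, 4, 5, 14, 6, 7, 8, 9, 10, 11, 12, 13, 15, 16, 17, 18, 19, 20, 21, 22, 23, 24, 25, 26],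
    [1, 2, 3, 4, 5, 16, 6, 7, 8, 9, 10, 11, 12, 13, 14, 15, 17, 18, 19, 20, 21, 22, 23, 24, 25, 26],
    [1, 2, 3, 4, 5, 18, 6, 7, 8, 9, 10, 11, 12, 13, 14, 15, 16, 17, 19, 20, 21, 22, 23, 24, 25, 26],
    [1, 2, 3, 4, 5, 20, 6, 7, 8, 9, 10, 11, 12, 13, 14, 15, 16, 17, 18, 19, 21, 22, 23, 24, 25, 26],
    [1, 2, 3, 4, 5, 22, 6, 7, 8, 9, 10, 11, 12, 13, 14, 15, 16, 17, 18, 19, 20, 21, 23, 24, 25, 26],
    [1, 2, 3, 4, 5, 24, 6, 7, 8, 9, 10, 11, 12, 13, 14, 15, 16, 17, 18, 19, 20, 21, 22, 23, 25, 26],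
    [1, 2, 3, 4, 5, 26, 6, 7, 8, 9, 10, 11, 12, 13, 14, 15, 16, 17, 18, 19, 20, 21, 22, 23, 24, 25],
    [1, 2, 3, 4, 7, 26, 5, 6, 8, 9, 10, 11, 12, 13, 14, 15, 16, 17, 18, 19, 20, 21, 22, 23, 24, 25],
    [1, 2, 3, 4, 9, 26, 5, 6, 7, 8, 10, 11, 12, 13, 14, 15, 16, 17, 18, 19, 20, 21, 22, 23, 24, 25],
    [1, 2, 3, 4, 11, 26, 5, 6, 7, 8, 9, 10, 12, 13, 14, 15, 16, 17, 18, 19, 20, 21, 22, 23, 24, 25],
    [1, 2, 3, 4, 13, 26, 5, 6, 7, 8, 9, 10, 11, 12, 14, 15, 16, 17, 18, 19, 20, 21, 22, 23, 24, 25],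
    [1, 2, 3, 4, 15, 26, 5, 6, 7, 8, 9, 10, 11, 12, 13, 14, 16, 17, 18, 19, 20, 21, 22, 23, 24, 25],
    [1, 2, 3, 4, 17, 26, 5, 6, 7, 8, 9, 10, 11, 12, 13, 14, 15, 16, 18, 19, 20, 21, 22, 23, 24, 25],
    [1, 2, 3, 4, 19, 26, 5, 6, 7, 8, 9, 10, 11, 12, 13, 14, 15, 16, 17, 18, 20, 21, 22, 23, 24, 25],
    [1, 2, 3, 4, 21, 26, 5, 6, 7, 8, 9, 10, 11, 12, 13, 14, 15, 16, 17, 18, 19, 20, 22, 23, 24, 25],
    [1, 2, 3, 4, 23, 26, 5, 6, 7, 8, 9, 10, 11, 12, 13, 14, 15, 16, 17, 18, 19, 20, 21, 22, 24, 25],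
    [1, 2, 3, 4, 25, 26, 5, 6, 7, 8, 9, 10, 11, 12, 13, 14, 15, 16, 17, 18, 19, 20, 21, 22, 23, 24],
    [1, 2, 3, 6, 25, 26, 4, 5, 7, 8, 9, 10, 11, 12, 13, 14, 15, 16, 17, 18, 19, 20, 21, 22, 23, 24],
    [1, 2, 3, 8, 25, 26, 4, 5, 6, 7, 9, 10, 11, 12, 13, 14, 15, 16, 17, 18, 19, 20, 21, 22, 23, 24],
    [1, 2, 3, 10, 25, 26, 4, 5, 6, 7, 8, 9, 11, 12, 13, 14, 15, 16, 17, 18, 19, 20, 21, 22, 23, 24],
    [1, 2, 3, 12, 25, 26, 4, 5, 6, 7, 8, 9, 10, 11, 13, 14, 15, 16, 17, 18, 19, 20, 21, 22, 23, 24],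
    [1, 2, 3, 14, 25, 26, 4, 5, 6, 7, 8, 9, 10, 11, 12, 13, 15, 16, 17, 18, 19, 20, 21, 22, 23, 24],
    [1, 2, 3, 16, 25, 26, 4, 5, 6, 7, 8, 9, 10, 11, 12, 13, 14, 15, 17, 18, 19, 20, 21, 22, 23, 24],
    [1, 2, 3, 18, 25, 26, 4, 5, 6, 7, 8, 9, 10, 11, 12, 13, 14, 15, 16, 17, 19, 20, 21, 22, 23, 24],
    [1, 2, 3, 20, 25, 26, 4, 5, 6, 7, 8, 9, 10, 11, 12, 13, 14, 15, 16, 17, 18, 19, 21, 22, 23, 24],
    [1, 2, 3, 22, 25, 26, 4, 5, 6, 7, 8, 9, 10, 11, 12, 13, 14, 15, 16, 17, 18, 19, 20, 21, 23, 24],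
    [1, 2, 3, 24, 25, 26, 4, 5, 6, 7, 8, 9, 10, 11, 12, 13, 14, 15, 16, 17, 18, 19, 20, 21, 22, 23],
    [1, 2, 5, 24, 25, 26, 3, 4, 6, 7, 8, 9, 10, 11, 12, 13, 14, 15, 16, 17, 18, 19, 20, 21, 22, 23],
    [1, 2, 7, 24, 25, 26, 3, 4, 5, 6, 8, 9, 10, 11, 12, 13, 14, 15, 16, 17, 18, 19, 20, 21, 22, 23],
    [1, 2, 9, 24, 25, 26, 3, 4, 5, 6, 7, 8, 10, 11, 12, 13, 14, 15, 16, 17, 18, 19, 20, 21, 22, 23],
    [1, 2, 11, 24, 25, 26, 3, 4, 5, 6, 7, 8, 9, 10, 12, 13, 14, 15, 16, 17, 18, 19, 20, 21, 22, 23],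
    [1, 2, 13, 24, 25, 26, 3, 4, 5, 6, 7, 8, 9, 10, 11, 12, 14, 15, 16, 17, 18, 19, 20, 21, 22, 23],
    [1, 2, 15, 24, 25, 26, 3, 4, 5, 6, 7, 8, 9, 10, 11, 12, 13, 14, 16, 17, 18, 19, 20, 21, 22, 23],
    [1, 2, 17, 24, 25, 26, 3, 4, 5, 6, 7, 8, 9, 10, 11, 12, 13, 14, 15, 16, 18, 19, 20, 21, 22, 23],
    [1, 2, 19, 24, 25, 26, 3, 4, 5, 6, 7, 8, 9, 10, 11, 12, 13, 14, 15, 16, 17, 18, 20, 21, 22, 23],
    [1, 2, 21, 24, 25, 26, 3, 4, 5, 6, 7, 8, 9, 10, 11, 12, 13, 14, 15, 16, 17, 18, 19, 20, 22, 23],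
    [1, 2, 23, 24, 25, 26, 3, 4, 5, 6, 7, 8, 9, 10, 11, 12, 13, 14, 15, 16, 17, 18, 19, 20, 21, 22],
    [1, 4, 23, 24, 25, 26, 2, 3, 5, 6, 7, 8, 9, 10, 11, 12, 13, 14, 15, 16, 17, 18, 19, 20, 21, 22],
    [1, 6, 23, 24, 25, 26, 2, 3, 4, 5, 7, 8, 9, 10, 11, 12, 13, 14, 15, 16, 17, 18, 19, 20, 21, 22],
    [1, 8, 23, 24, 25, 26, 2, 3, 4, 5, 6, 7, 9, 10, 11, 12, 13, 14, 15, 16, 17, 18, 19, 20, 21, 22],
    [1, 10, 23, 24, 25, 26, 2, 3, 4, 5, 6, 7, 8, 9, 11, 12, 13, 14, 15, 16, 17, 18, 19, 20, 21, 22],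
    [1, 12, 23, 24, 25, 26, 2, 3, 4, 5, 6, 7, 8, 9, 10, 11, 13, 14, 15, 16, 17, 18, 19, 20, 21, 22],
    [1, 14, 23, 24, 25, 26, 2, 3, 4, 5, 6, 7, 8, 9, 10, 11, 12, 13, 15, 16, 17, 18, 19, 20, 21, 22],
    [1, 16, 23, 24, 25, 26, 2, 3, 4, 5, 6, 7, 8, 9, 10, 11, 12, 13, 14, 15, 17, 18, 19, 20, 21, 22],
    [1, 18, 23, 24, 25, 26, 2, 3, 4, 5, 6, 7, 8, 9, 10, 11, 12, 13, 14, 15, 16, 17, 19, 20, 21, 22],
    [1, 20, 23, 24, 25, 26, 2, 3, 4, 5, 6, 7, 8, 9, 10, 11, 12, 13, 14, 15, 16, 17, 18, 19, 21, 22],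
    [1, 22, 23, 24, 25, 26, 2, 3, 4, 5, 6, 7, 8, 9, 10, 11, 12, 13, 14, 15, 16, 17, 18, 19, 20, 21],
    [3, 22, 23, 24, 25, 26, 1, 2, 4, 5, 6, 7, 8, 9, 10, 11, 12, 13, 14, 15, 16, 17, 18, 19, 20, 21],
    [5, 22, 23, 24, 25, 26, 1, 2, 3, 4, 6, 7, 8, 9, 10, 11, 12, 13, 14, 15, 16, 17, 18, 19, 20, 21],
    [7, 22, 23, 24, 25, 26, 1, 2, 3, 4, 5, 6, 8, 9, 10, 11, 12, 13, 14, 15, 16, 17, 18, 19, 20, 21],
    [9, 22, 23, 24, 25, 26, 1, 2, 3, 4, 5, 6, 7, 8, 10, 11, 12, 13, 14, 15, 16, 17, 18, 19, 20, 21]]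

def sl (t k : ℕ) : ℕ := (starTab.getD t []).getD k 0

/-- A fast check that a list has no duplicates. -/
def fastNodup : ℕ → List ℕ → Bool
  | _, [] => true
  | m, x :: xs => (!m.testBit x) && fastNodup (m ||| (1 <<< x)) xs

theorem fastNodup_spec : ∀ (l : List ℕ) (m : ℕ), fastNodup m l = true →
    l.Nodup ∧ ∀ x ∈ l, m.testBit x = false := by
  intro l
  induction l with
  | nil => intro m _; simp
  | cons x xs ih =>
    intro m h
    rw [fastNodup, Bool.and_eq_true] at h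
    obtain ⟨h1, h2⟩ := ih _ h.2
    have h3 : m.testBit x = false := by simpa using h.1
    refine ⟨?_, ?_⟩
    · rw [List.nodup_cons]
      refine ⟨fun hx => ?_, h1⟩
      have := h2 x hx
      rw [Nat.testBit_or, Nat.testBit_shiftLeft] at this
      simp at this
    · intro y hy
      rcases List.mem_cons.1 hy with rfl | hy
      · exact h3
      · have := h2 y hy
        rw [Nat.testBit_or, Bool.or_eq_false_iff] at this
        exact this.1

/-- The check for a given `t`. -/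
def check (t : ℕ) : Bool :=
  fastNodup 0 ((List.range 26).map (sl t)) &&
  (List.range 26).all (fun k => decide (1 ≤ sl t k ∧ sl t k ≤ 26)) &&
  decide (((List.range 6).map (sl t)).sum = 27 + 2 * t) &&
  decide (((List.range 20).map (fun k => sl t (6 + k))).sum = 324 - 2 * t) &&
  fastNodup 0 ((List.range t).map (pr t)) &&
  fastNodup 0 ((List.range t).map (fun k => k + pr t k)) &&
  (List.range t).all (fun k => decide (1 ≤ pr t k ∧ pr t k ≤ t ∧ t < k + pr t k + 26 ∧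
    3 * t + k + pr t k < 271))

theorem check_all : ∀ t < 52, check t = true := by decide +kernel

theorem inj_of_fastNodup {n : ℕ} {g : ℕ → ℕ} (h : fastNodup 0 ((List.range n).map g) = true)
    (i j : ℕ) (hi : i < n) (hj : j < n) (hij : g i = g j) : i = j :=
  List.inj_on_of_nodup_map (fastNodup_spec _ _ h).1 (List.mem_range.2 hi) (List.mem_range.2 hj) hij

/-- the labels of the leaves (and `0` for the centres) -/
def lab (t : ℕ) : (Fin (6 + 1) ⊕ Fin (20 + 1)) ⊕ Fin t × Fin 3 → ℕ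
  | Sum.inl (Sum.inl i) => if i = 0 then 0 else sl t (i.val - 1)
  | Sum.inl (Sum.inr i) => if i = 0 then 0 else sl t (i.val + 5)
  | Sum.inr (k, j) => if j = 0 then 27 + k.val else if j = 1 then 0 else 26 + t + pr t k.val

/-- the vertex sums -/
def vs (t : ℕ) : (Fin (6 + 1) ⊕ Fin (20 + 1)) ⊕ Fin t × Fin 3 → ℕ
  | Sum.inl (Sum.inl i) => if i = 0 then 27 + 2 * t else sl t (i.val - 1)
  | Sum.inl (Sum.inr i) => if i = 0 then 324 - 2 * t else sl t (i.val + 5)
  | Sum.inr (k, j) => if j = 0 then 27 + k.val else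
      if j = 1 then 53 + t + k.val + pr t k.val else 26 + t + pr t k.val

theorem vs_injective (t : ℕ) (ht : t < 52) : Function.Injective (vs t) := by
  have h := check_all t ht
  unfold check at h
  simp only [Bool.and_eq_true, List.all_eq_true, List.mem_range, decide_eq_true_eq] at h
  obtain ⟨⟨⟨⟨⟨⟨h1, h2⟩, -⟩, -⟩, h5⟩, h6⟩, h7⟩ := h
  have i1 := inj_of_fastNodup h1
  have i5 := inj_of_fastNodup h5
  have i6 := inj_of_fastNodup h6
  have z7 : ∀ i : Fin (6 + 1), i ≠ 0 → 1 ≤ i.val := fun i hi =>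
    Nat.one_le_iff_ne_zero.2 fun h => hi (Fin.ext h)
  have z21 : ∀ i : Fin (20 + 1), i ≠ 0 → 1 ≤ i.val := fun i hi =>
    Nat.one_le_iff_ne_zero.2 fun h => hi (Fin.ext h)
  have fa : ∀ i : Fin (6 + 1), (i = 0 ∧ vs t (Sum.inl (Sum.inl i)) = 27 + 2 * t) ∨
      (1 ≤ i.val ∧ vs t (Sum.inl (Sum.inl i)) = sl t (i.val - 1) ∧ 1 ≤ sl t (i.val - 1) ∧
        sl t (i.val - 1) ≤ 26) := by
    intro i
    by_cases hi : i = 0
    · exact Or.inl ⟨hi, if_pos hi⟩
    · have := z7 i hi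
      exact Or.inr ⟨this, if_neg hi, h2 _ (by omega)⟩
  have fb : ∀ i : Fin (20 + 1), (i = 0 ∧ vs t (Sum.inl (Sum.inr i)) = 324 - 2 * t) ∨
      (1 ≤ i.val ∧ vs t (Sum.inl (Sum.inr i)) = sl t (i.val + 5) ∧ 1 ≤ sl t (i.val + 5) ∧
        sl t (i.val + 5) ≤ 26) := by
    intro i
    by_cases hi : i = 0
    · exact Or.inl ⟨hi, if_pos hi⟩
    · have := z21 i hi
      exact Or.inr ⟨this, if_neg hi, h2 _ (by omega)⟩
  have fc : ∀ (k : Fin t) (a : Fin 3), (a = 0 ∧ vs t (Sum.inr (k, a)) = 27 + k.val) ∨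
      (a = 1 ∧ vs t (Sum.inr (k, a)) = 53 + t + k.val + pr t k.val) ∨
      (a = 2 ∧ vs t (Sum.inr (k, a)) = 26 + t + pr t k.val) := by
    intro k a
    fin_cases a
    · exact Or.inl ⟨rfl, rfl⟩
    · exact Or.inr (Or.inl ⟨rfl, rfl⟩)
    · exact Or.inr (Or.inr ⟨rfl, rfl⟩)
  rintro ((i | i) | ⟨k, a⟩) ((j | j) | ⟨k', b⟩) hij
  · rcases fa i with ⟨hi, ei⟩ | ⟨hi, ei, bi, bi'⟩ <;>
      rcases fa j with ⟨hj, ej⟩ | ⟨hj, ej, bj, bj'⟩ <;> rw [ei, ej] at hij
    · rw [hi, hj]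
    · omega
    · omega
    · have := i1 _ _ (by omega) (by omega) hij
      have h' : i = j := Fin.ext (by omega)
      rw [h']
  · rcases fa i with ⟨hi, ei⟩ | ⟨hi, ei, bi, bi'⟩ <;>
      rcases fb j with ⟨hj, ej⟩ | ⟨hj, ej, bj, bj'⟩ <;> rw [ei, ej] at hij
    · omega
    · omega
    · omega
    · have := i1 _ _ (by omega) (by omega) hij
      omega
  · have b1 := h7 k'.val k'.isLt
    rcases fa i with ⟨hi, ei⟩ | ⟨hi, ei, bi, bi'⟩ <;>
      rcases fc k' b with ⟨hj, ej⟩ | ⟨hj, ej⟩ | ⟨hj, ej⟩ <;> rw [ei, ej] at hij <;>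
      omega
  · rcases fb i with ⟨hi, ei⟩ | ⟨hi, ei, bi, bi'⟩ <;>
      rcases fa j with ⟨hj, ej⟩ | ⟨hj, ej, bj, bj'⟩ <;> rw [ei, ej] at hij
    · omega
    · omega
    · omega
    · have := i1 _ _ (by omega) (by omega) hij
      omega
  · rcases fb i with ⟨hi, ei⟩ | ⟨hi, ei, bi, bi'⟩ <;>
      rcases fb j with ⟨hj, ej⟩ | ⟨hj, ej, bj, bj'⟩ <;> rw [ei, ej] at hij
    · rw [hi, hj]
    · omega
    · omega
    · have := i1 _ _ (by omega) (by omega) hij
      have h' : i = j := Fin.ext (by omega)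
      rw [h']
  · have b1 := h7 k'.val k'.isLt
    rcases fb i with ⟨hi, ei⟩ | ⟨hi, ei, bi, bi'⟩ <;>
      rcases fc k' b with ⟨hj, ej⟩ | ⟨hj, ej⟩ | ⟨hj, ej⟩ <;> rw [ei, ej] at hij <;>
      omega
  · have b1 := h7 k.val k.isLt
    rcases fa j with ⟨hj, ej⟩ | ⟨hj, ej, bj, bj'⟩ <;>
      rcases fc k a with ⟨hi, ei⟩ | ⟨hi, ei⟩ | ⟨hi, ei⟩ <;> rw [ei, ej] at hij <;>
      omega
  · have b1 := h7 k.val k.isLt
    rcases fb j with ⟨hj, ej⟩ | ⟨hj, ej, bj, bj'⟩ <;>
      rcases fc k a with ⟨hi, ei⟩ | ⟨hi, ei⟩ | ⟨hi, ei⟩ <;> rw [ei, ej] at hij <;>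
      omega
  · have b1 := h7 k.val k.isLt
    have b2 := h7 k'.val k'.isLt
    rcases fc k a with ⟨hi, ei⟩ | ⟨hi, ei⟩ | ⟨hi, ei⟩ <;>
      rcases fc k' b with ⟨hj, ej⟩ | ⟨hj, ej⟩ | ⟨hj, ej⟩ <;> rw [ei, ej] at hij
    · have h' : k = k' := Fin.ext (by omega)
      rw [h', hi, hj]
    · omega
    · omega
    · omega
    · have h' : k = k' := Fin.ext (i6 _ _ k.isLt k'.isLt (by omega))
      rw [h', hi, hj]
    · omega
    · omega
    · omega
    · have h' : k = k' := Fin.ext (i5 _ _ k.isLt k'.isLt (by omega))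
      rw [h', hi, hj]

/-- The leaves of the union. -/
def LL (t : ℕ) : Finset ((Fin (6 + 1) ⊕ Fin (20 + 1)) ⊕ Fin t × Fin 3) :=
  ((Finset.univ.erase (0 : Fin (6 + 1))).disjSum (Finset.univ.erase (0 : Fin (20 + 1)))).disjSum
    ((Finset.univ : Finset (Fin t)) ×ˢ ({0, 2} : Finset (Fin 3)))

/-- The parents of the leaves. -/
def PP (t : ℕ) : (Fin (6 + 1) ⊕ Fin (20 + 1)) ⊕ Fin t × Fin 3 →
    (Fin (6 + 1) ⊕ Fin (20 + 1)) ⊕ Fin t × Fin 3 :=
  Sum.map (Sum.map (fun _ => 0) (fun _ => 0)) (fun x => (x.1, 1))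

theorem SF_union (t : ℕ) :
    SF ((star 6 ⊕g star 20) ⊕g copies t (pathGraph 3)) (LL t) (PP t) :=
  ((SF_star 6).sum (SF_star 20)).sum (SF_copies t)

theorem card_LL (t : ℕ) : (LL t).card = 26 + 2 * t := by
  unfold LL
  rw [Finset.card_disjSum, Finset.card_disjSum, Finset.card_product,
    Finset.card_erase_of_mem (Finset.mem_univ _), Finset.card_erase_of_mem (Finset.mem_univ _),
    Finset.card_univ, Finset.card_univ, Finset.card_univ,
    Fintype.card_fin, Fintype.card_fin, Fintype.card_fin]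
  have : ({0, 2} : Finset (Fin 3)).card = 2 := by decide
  rw [this]
  omega

theorem sum_range_list (n : ℕ) (f : ℕ → ℕ) :
    ∑ i ∈ Finset.range n, f i = ((List.range n).map f).sum := rfl

theorem sum_erase_zero (n : ℕ) (f : ℕ → ℕ) (g : Fin (n + 1) → ℕ)
    (hg : ∀ i : Fin (n + 1), i ≠ 0 → g i = f (i.val - 1)) :
    ∑ x ∈ Finset.univ.erase (0 : Fin (n + 1)), g x = ((List.range n).map f).sum := by
  rw [← sum_range_list, Finset.sum_range]
  have h1 : ∑ x ∈ Finset.univ.erase (0 : Fin (n + 1)), g x + g 0 = ∑ x, g x :=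
    Finset.sum_erase_add _ _ (Finset.mem_univ _)
  rw [Fin.sum_univ_succ] at h1
  have h2 : ∑ i : Fin n, g i.succ = ∑ i : Fin n, f i.val :=
    Finset.sum_congr rfl fun i _ => by rw [hg _ (Fin.succ_ne_zero i), Fin.val_succ,
      Nat.add_sub_cancel]
  omega

theorem antimagic_union (t : ℕ) (ht : t < 52) :
    Antimagic ((star 6 ⊕g star 20) ⊕g copies t (pathGraph 3)) := by
  have h := check_all t ht
  unfold check at h
  simp only [Bool.and_eq_true, List.all_eq_true, List.mem_range, decide_eq_true_eq] at h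
  obtain ⟨⟨⟨⟨⟨⟨h1, h2⟩, h3⟩, h4⟩, h5⟩, h6⟩, h7⟩ := h
  have hlv : ∀ x ∈ LL t, lab t x = vs t x := by
    rintro ((i | i) | ⟨k, a⟩) hx
    · have hi : i ≠ 0 := by simpa [LL] using hx
      change (if i = 0 then _ else _) = (if i = 0 then _ else _)
      rw [if_neg hi, if_neg hi]
    · have hi : i ≠ 0 := by simpa [LL] using hx
      change (if i = 0 then _ else _) = (if i = 0 then _ else _)
      rw [if_neg hi, if_neg hi]
    · have ha : a = 0 ∨ a = 2 := by simpa [LL] using hx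
      rcases ha with rfl | rfl <;> rfl
  have hvs : ∀ u, (if u ∈ LL t then lab t u else ∑ x ∈ LL t, if PP t x = u then lab t x else 0) =
      vs t u := by
    intro u
    split_ifs with hu
    · exact hlv u hu
    · rcases u with ((i | i) | ⟨k, a⟩)
      · have hi : i = 0 := by simpa [LL] using hu
        subst hi
        rw [LL, Finset.sum_disjSum, Finset.sum_disjSum]
        simp only [PP, Sum.map_inl, Sum.map_inr, if_true, reduceCtorEq, if_false,
          Finset.sum_const_zero, add_zero, Sum.inl.injEq]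
        rw [sum_erase_zero 6 (sl t) (fun x => lab t (Sum.inl (Sum.inl x)))
          (fun i hi => if_neg hi), h3]
        rfl
      · have hi : i = 0 := by simpa [LL] using hu
        subst hi
        rw [LL, Finset.sum_disjSum, Finset.sum_disjSum]
        simp only [PP, Sum.map_inl, Sum.map_inr, if_true, reduceCtorEq, if_false,
          Finset.sum_const_zero, add_zero, zero_add, Sum.inl.injEq]
        rw [sum_erase_zero 20 (fun k => sl t (6 + k)) _ (fun i hi => by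
          have : 1 ≤ i.val := Nat.one_le_iff_ne_zero.2 fun h => hi (Fin.ext h)
          rw [show 6 + (i.val - 1) = i.val + 5 by omega]
          exact if_neg hi), h4]
        rfl
      · have ha : a = 1 := by
          have : ∀ a : Fin 3, ¬ (a = 0 ∨ a = 2) → a = 1 := by decide
          exact this a (by simpa [LL] using hu)
        subst ha
        rw [LL, Finset.sum_disjSum, Finset.sum_disjSum, Finset.sum_product]
        simp only [PP, Sum.map_inl, Sum.map_inr, reduceCtorEq, if_false,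
          Finset.sum_const_zero, add_zero, zero_add, Sum.inr.injEq, Prod.mk.injEq, and_true]
        rw [Finset.sum_eq_single k]
        · rw [Finset.sum_pair (by decide), if_pos rfl, if_pos rfl]
          change (27 + k.val) + (26 + t + pr t k.val) = 53 + t + k.val + pr t k.val
          omega
        · intro k' _ hk'
          simp [hk']
        · intro h
          exact absurd (Finset.mem_univ _) h
  refine (SF_union t).antimagic (lab t) ?_ ?_ ?_ ?_
  · rintro ((i | i) | ⟨k, a⟩) hx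
    · have hi : i = 0 := by simpa [LL] using hx
      subst hi
      rfl
    · have hi : i = 0 := by simpa [LL] using hx
      subst hi
      rfl
    · have ha : a = 1 := by
        have : ∀ a : Fin 3, ¬ (a = 0 ∨ a = 2) → a = 1 := by decide
        exact this a (by simpa [LL] using hx)
      subst ha
      rfl
  · intro x hx y hy hxy
    rw [hlv x hx, hlv y hy] at hxy
    exact vs_injective t ht hxy
  · intro x hx
    rw [card_LL]
    rcases x with ((i | i) | ⟨k, a⟩)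
    · have hi : i ≠ 0 := by simpa [LL] using hx
      have h1i : 1 ≤ i.val := Nat.one_le_iff_ne_zero.2 fun h => hi (Fin.ext h)
      have := h2 (i.val - 1) (by omega)
      have e : lab t (Sum.inl (Sum.inl i)) = sl t (i.val - 1) := if_neg hi
      rw [e]
      omega
    · have hi : i ≠ 0 := by simpa [LL] using hx
      have := h2 (i.val + 5) (by omega)
      have e : lab t (Sum.inl (Sum.inr i)) = sl t (i.val + 5) := if_neg hi
      rw [e]
      omega
    · have ha : a = 0 ∨ a = 2 := by simpa [LL] using hx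
      have b1 := h7 k.val k.isLt
      have b2 := k.isLt
      rcases ha with rfl | rfl
      · change 1 ≤ 27 + k.val ∧ 27 + k.val ≤ 26 + 2 * t
        omega
      · change 1 ≤ 26 + t + pr t k.val ∧ 26 + t + pr t k.val ≤ 26 + 2 * t
        omega
  · intro u v huv
    rw [hvs, hvs]
    exact fun h => huv (vs_injective t ht h)

/-! ### the values of `τ` -/

theorem tau_le {V : Type} [Fintype V] (G : SimpleGraph V) (t : ℕ)
    (h : ¬ Antimagic (G ⊕g copies (t + 1) (pathGraph 3))) : tau G ≤ ((t : ℕ∞) : WithBot ℕ∞) := by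
  unfold tau
  split_ifs
  · rw [WithBot.coe_le_coe]
    apply sSup_le
    rintro _ ⟨s, hs, rfl⟩
    have : s ≤ t := by
      by_contra hcon
      exact h (hs (t + 1) (by omega))
    change (s : ℕ∞) ≤ (t : ℕ∞)
    exact_mod_cast this
  · exact bot_le

theorem le_tau {V : Type} [Fintype V] (G : SimpleGraph V) (t : ℕ) (h0 : Antimagic G)
    (h : ∀ t' ≤ t, Antimagic (G ⊕g copies t' (pathGraph 3))) :
    ((t : ℕ∞) : WithBot ℕ∞) ≤ tau G := by
  unfold tau
  rw [if_pos h0, WithBot.coe_le_coe]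
  exact le_sSup ⟨t, h, rfl⟩

theorem antimagic_of_equiv {V W : Type} [Fintype V] [Fintype W] (G : SimpleGraph V)
    (H : SimpleGraph W) (e : V ≃ W) (he : ∀ x y, G.Adj x y ↔ H.Adj (e x) (e y))
    (h : Antimagic H) : Antimagic G := by
  classical
  obtain ⟨f, hf, hd⟩ := h
  have hb : Set.BijOn (Sym2.map e) G.edgeSet H.edgeSet := by
    refine ⟨?_, (Sym2.map.injective e.injective).injOn, ?_⟩
    · intro z
      induction z using Sym2.ind with
      | _ x y => exact fun hz => (he x y).1 hz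
    · intro z
      induction z using Sym2.ind with
      | _ x y =>
        intro hz
        refine ⟨s(e.symm x, e.symm y), ?_, by simp⟩
        rw [mem_edgeSet, he]
        simpa using hz
  have hn : G.edgeSet.ncard = H.edgeSet.ncard := by
    rw [← hb.image_eq, hb.injOn.ncard_image]
  refine ⟨f ∘ Sym2.map e, ?_, ?_⟩
  · rw [hn]
    exact hf.comp hb
  · have key : ∀ v, vertexSum G (f ∘ Sym2.map e) v = vertexSum H f (e v) := by
      intro v
      unfold vertexSum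
      apply Finset.sum_bij (fun z _ => Sym2.map e z)
      · intro z hz
        rw [Finset.mem_filter] at hz ⊢
        exact ⟨Finset.mem_univ _, hb.mapsTo hz.2.1, Sym2.mem_map.2 ⟨v, hz.2.2, rfl⟩⟩
      · intro z _ z' _ hzz
        exact Sym2.map.injective e.injective hzz
      · intro z hz
        rw [Finset.mem_filter] at hz
        obtain ⟨y, hy, rfl⟩ := hb.surjOn hz.2.1
        refine ⟨y, ?_, rfl⟩
        rw [Finset.mem_filter]
        refine ⟨Finset.mem_univ _, hy, ?_⟩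
        obtain ⟨u, hu, huv⟩ := Sym2.mem_map.1 hz.2.2
        rwa [e.injective huv] at hu
      · intro z _
        rfl
    intro u v huv
    rw [key, key]
    exact hd _ _ fun h => huv (e.injective h)

theorem antimagic_union_zero : Antimagic (star 6 ⊕g star 20) := by
  apply antimagic_of_equiv _ _ (Equiv.sumEmpty (Fin (6 + 1) ⊕ Fin (20 + 1)) (Fin 0 × Fin 3)).symm
    ?_ (antimagic_union 0 (by norm_num))
  intro x y
  simp

/-- **Result.** `τ` is not subadditive: there are antimagic graphs `G`, `H` with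
`τ(G) + τ(H) < τ(G ∪ H)`. -/
theorem result : ∃ (a b : ℕ) (G : SimpleGraph (Fin a)) (H : SimpleGraph (Fin b)),
    Antimagic G ∧ Antimagic H ∧ tau G + tau H < tau (G ⊕g H) := by
  refine ⟨6 + 1, 20 + 1, star 6, star 20, antimagic_star 6 (by norm_num),
    antimagic_star 20 (by norm_num), ?_⟩
  have h1 := tau_le (star 6) 9 not_antimagic_6
  have h2 := tau_le (star 20) 41 not_antimagic_20
  have h3 := le_tau (star 6 ⊕g star 20) 51 antimagic_union_zero
    (fun t ht => antimagic_union t (by omega))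
  refine lt_of_le_of_lt (add_le_add h1 h2) (lt_of_lt_of_le ?_ h3)
  rw [← WithBot.coe_add, WithBot.coe_lt_coe]
  norm_cast

end Pool.Agent.Results.MP_567833_co.NotSubadditive
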